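import Pool.Agent.H29.FL4.Stmts

/-!
# MP_e1ba20, degree four: row CLS
-/

set_option autoImplicit false

open Matrix MeasureTheory

namespace Pool.FL4

open Pool.FLT

theorem cls29 (hNRE : NREStmt) (hRED : REDStmt) (hIJ4 : IJ4Stmt) (hFB4 : FB4Stmt) : CLSStmt := by
  classical
  obtain ⟨K, hK, h1⟩ := hRED
  obtain ⟨C, hC, h2⟩ := hFB4
  refine ⟨C * K ^ 3, by positivity, ?_⟩
  intro i hi s hs S hS h
  have hi' : (1 : ℝ) ≤ i := by exact_mod_cast hi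
  have hρ : (1 : ℝ) ≤ K * i := by nlinarith
  obtain ⟨hfin, hcard⟩ := h2 (nrm (G0 i)) (K * i) hρ
  have key : ∀ s' : ℕ, s' ∈ S → ∃ (d' : Fin 4 → ℝ) (x : aa 4), Eqv i (s : ℤ) (s' : ℤ) d' ∧
      x ∈ Lam (nrm (G0 i)) ∧ ‖x‖ ≤ K * i ∧ ∀ j, |d' j| = Real.exp (co x j) := by
    intro s' hs'
    obtain ⟨γ, d, hd⟩ := h s' hs'
    obtain ⟨d', hd'⟩ := hNRE i hi (s : ℤ) (s' : ℤ) γ d hd
    exact h1 i hi s hs s' (hS hs') d' hd'
  choose! f x hf using key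
  have h3 : S.card ≤ ({d : Fin 4 → ℝ | ∃ x ∈ Lam (nrm (G0 i)), ‖x‖ ≤ K * i ∧
      ∀ j, |d j| = Real.exp (co x j)}).ncard := by
    rw [Set.ncard_eq_toFinset_card _ hfin]
    refine Finset.card_le_card_of_injOn f ?_ ?_
    · intro s' hs'
      obtain ⟨-, h4, h5, h6⟩ := hf s' hs'
      rw [Finset.mem_coe, Set.Finite.mem_toFinset]
      exact ⟨x s', h4, h5, h6⟩
    · intro s1 hs1 s2 hs2 h12
      have e1 := (hf s1 hs1).1
      have e2 := (hf s2 hs2).1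
      have h12' : f s1 = f s2 := h12
      rw [← h12'] at e2
      exact hIJ4 i hi s1 (hS hs1) s2 (hS hs2) (s : ℤ) (f s1) e1 e2
  calc (S.card : ℝ) ≤ _ := by exact_mod_cast h3
    _ ≤ C * (K * i) ^ 3 := hcard
    _ = _ := by ring

end Pool.FL4
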