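import Pool.Agent.H29.FL4.Stmts

/-!
# MP_e1ba20, degree four: row FN4
-/

set_option autoImplicit false

open Matrix MeasureTheory

namespace Pool.FL4

open Pool.FLT

theorem fn4 (hSEQ : SEQStmt) (hSIE : SIEStmt) (hMEF : MEFStmt) (hUNI : UNIStmt) (hEQL : EQLStmt)
    (hCLS : CLSStmt) (hABS : ABSStmt) : FN4Stmt := by
  intro Γ hΓ
  obtain ⟨C0, hC0, h1⟩ := hMEF Γ hΓ
  obtain ⟨C1, hC1, h2⟩ := hCLS
  set c1 : ℝ := 1 / (400 * C0 + 1) with hc1
  have hc1pos : 0 < c1 := by positivity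
  have hc1le : c1 ≤ 1 := by
    rw [hc1, div_le_one (by positivity)]
    linarith
  have hC1c1 : 400 * C0 * c1 < 1 := by
    rw [hc1, mul_one_div, div_lt_one (by positivity)]
    linarith
  -- eventually `24 C1 x^3 ≤ exp (x / 8)`
  have hev : ∃ L0 : ℝ, ∀ x ≥ L0, 24 * (C1 * x ^ 3) ≤ Real.exp (x / 8) := by
    have h3 := Real.tendsto_pow_mul_exp_neg_atTop_nhds_zero 3
    have h4 : Filter.Tendsto (fun L : ℝ => L / 8) Filter.atTop Filter.atTop :=
      Filter.tendsto_id.atTop_div_const (by norm_num)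
    have h5 := h3.comp h4
    have h6 : 0 < 1 / (24 * C1 * 8 ^ 3) := by positivity
    have h7 := h5.eventually (gt_mem_nhds h6)
    obtain ⟨L0, hL0⟩ := Filter.eventually_atTop.mp h7
    refine ⟨L0, fun L hL => ?_⟩
    have h8 := hL0 L hL
    simp only [Function.comp] at h8
    rw [lt_div_iff₀ (by positivity)] at h8
    have h9 : (L / 8) ^ 3 * Real.exp (-(L / 8)) * (24 * C1 * 8 ^ 3) =
        (24 * (C1 * L ^ 3)) * Real.exp (-(L / 8)) := by ring
    rw [h9, Real.exp_neg, ← div_eq_mul_inv, div_lt_one (Real.exp_pos _)] at h8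
    exact h8.le
  obtain ⟨L0, hL0⟩ := hev
  set L1 : ℝ := max L0 2 with hL1
  have hL1pos : 2 ≤ L1 := le_max_right _ _
  refine ⟨c1 / 16, max 1 (((L1 + 1) / c1) ^ 2), by positivity, ?_⟩
  intro T hT hfin
  have hT1 : 1 ≤ T := (le_max_left _ _).trans hT
  have hT2 : ((L1 + 1) / c1) ^ 2 ≤ T := (le_max_right _ _).trans hT
  have hTr : 0 ≤ T ^ (1 / 2 : ℝ) := Real.rpow_nonneg (by linarith) _
  have hTp : (T ^ (1 / 2 : ℝ)) ^ 2 = T := by
    rw [← Real.rpow_natCast, ← Real.rpow_mul (by linarith)]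
    norm_num
  set L : ℝ := c1 * T ^ (1 / 2 : ℝ) with hL
  have hLL1 : L1 + 1 ≤ L := by
    have h3 : (L1 + 1) / c1 ≤ T ^ (1 / 2 : ℝ) := by
      refine le_of_sq_le_sq ?_ hTr
      rw [hTp]
      exact hT2
    rw [div_le_iff₀ hc1pos] at h3
    rw [hL]
    linarith
  set i : ℕ := ⌊L⌋₊ with hi
  have hiL : (i : ℝ) ≤ L := Nat.floor_le (by linarith)
  have hLi : L < (i : ℝ) + 1 := Nat.lt_floor_add_one _
  have hiL1 : L1 ≤ (i : ℝ) := by linarith
  have hi2 : (2 : ℝ) ≤ i := by linarith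
  have hi1 : 1 ≤ i := by
    have : (1 : ℝ) ≤ i := by linarith
    exact_mod_cast this
  have hiT : C0 * (20 * (i : ℝ)) ^ 2 < T := by
    have h3 : (i : ℝ) ^ 2 ≤ c1 * T := by
      calc (i : ℝ) ^ 2 ≤ L ^ 2 := pow_le_pow_left₀ (by positivity) hiL 2
        _ = c1 ^ 2 * T := by rw [hL, mul_pow, hTp]
        _ ≤ c1 * T := by
            refine mul_le_mul_of_nonneg_right ?_ (by linarith)
            nlinarith
    calc C0 * (20 * (i : ℝ)) ^ 2 = 400 * C0 * (i : ℝ) ^ 2 := by ring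
      _ ≤ 400 * C0 * (c1 * T) := mul_le_mul_of_nonneg_left h3 (by positivity)
      _ = (400 * C0 * c1) * T := by ring
      _ < 1 * T := mul_lt_mul_of_pos_right hC1c1 (by linarith)
      _ = T := one_mul T
  -- the flats
  obtain ⟨A, B, C, D, w, x, hA, hB, hC, hD, hdet, hx0, hx1, hx2, hw, heqv⟩ := hUNI i hi1
  have hR : (1 : ℝ) ≤ 20 * i := by linarith
  have hmem : ∀ s : ℕ, fl Γ (nrm (Gs i (s : ℤ))) ∈ NX Γ T := by
    intro s
    have hx : ∀ k, x k ∈ Lam (nrm (Gs i (s : ℤ))) := fun k =>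
      hEQL i hi1 s (w k) (x k) (heqv k s) (hw k)
    exact h1 _ (20 * i) A B C D hR hA hB hC hD hdet (x 0) (x 1) (x 2) (hx 0) (hx 1) (hx 2) hx0 hx1
      hx2 T hiT
  -- the number of parameters
  obtain ⟨-, -, hQ0, -, -, -, -, h2i⟩ := hSEQ i
  have hodd : Odd (4 * Q i + 1).toNat := by
    refine ⟨(2 * Q i).toNat, ?_⟩
    omega
  have hcard2 := hSIE _ hodd
  have h2N : 2 ^ i ≤ (4 * Q i + 1).toNat := by
    have h3 : ((2 ^ i : ℕ) : ℤ) ≤ (((4 * Q i + 1).toNat : ℕ) : ℤ) := by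
      rw [Int.toNat_of_nonneg (by omega)]
      push_cast
      exact h2i
    exact_mod_cast h3
  have hcard : Real.exp ((i : ℝ) / 4) ≤ ((SS i).card : ℝ) := by
    refine le_of_sq_le_sq ?_ (by positivity)
    have h3 : ((2 ^ i : ℕ) : ℝ) ≤ (((SS i).card ^ 2 : ℕ) : ℝ) := by
      exact_mod_cast h2N.trans hcard2
    push_cast at h3
    refine le_trans ?_ h3
    rw [← Real.exp_nat_mul]
    have h4 : ((2 : ℕ) : ℝ) * ((i : ℝ) / 4) = (i : ℝ) * (1 / 2) := by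
      push_cast
      ring
    rw [h4, Real.exp_nat_mul]
    refine pow_le_pow_left₀ (Real.exp_pos _).le ?_ i
    have h5 : Real.exp (1 / 2) ^ 2 < 4 := by
      rw [← Real.exp_nat_mul]
      have h6 : ((2 : ℕ) : ℝ) * (1 / 2) = 1 := by norm_num
      rw [h6]
      linarith [Real.exp_one_lt_d9]
    nlinarith [Real.exp_pos (1 / 2)]
  -- the fibres
  classical
  have hK : (0 : ℝ) ≤ C1 * (i : ℝ) ^ 3 := by positivity
  have hin : ∀ s ∈ SS i, ∀ S' : Finset ℕ, S' ⊆ SS i → (∀ s' ∈ S', ∃ (γ : GZ 4) (d : Fin 4 → ℝ),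
      ((nrm (Gs i (s' : ℤ)) : GR 4) : Matrix (Fin 4) (Fin 4) ℝ) =
        (inc 4 γ : Matrix (Fin 4) (Fin 4) ℝ) * ((nrm (Gs i (s : ℤ)) : GR 4) : Matrix (Fin 4) (Fin 4) ℝ) *
          diagonal d) → (S'.card : ℝ) ≤ C1 * (i : ℝ) ^ 3 := fun s hs S' hS' h => h2 i hi1 s hs S' hS' h
  have habs := hABS (SS i) (fun s : ℕ => nrm (Gs i (s : ℤ))) (C1 * (i : ℝ) ^ 3) hK hin Γ
  have hfib : ∀ F ∈ hfin.toFinset,
      (((SS i).filter fun s : ℕ => fl Γ (nrm (Gs i (s : ℤ))) = F).card : ℝ) ≤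
        24 * (C1 * (i : ℝ) ^ 3) := by
    intro F hF
    have h3 := habs ((SS i).filter fun s : ℕ => fl Γ (nrm (Gs i (s : ℤ))) = F)
      (Finset.filter_subset _ _)
    refine h3 ?_
    intro s hs s' hs'
    rw [Finset.mem_filter] at hs hs'
    exact hs.2.trans hs'.2.symm
  have hcount : ((SS i).card : ℝ) ≤ (NX Γ T).ncard * (24 * (C1 * (i : ℝ) ^ 3)) := by
    have h3 : (SS i).card =
        ∑ F ∈ hfin.toFinset, ((SS i).filter fun s : ℕ => fl Γ (nrm (Gs i (s : ℤ))) = F).card := by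
      refine Finset.card_eq_sum_card_fiberwise fun s _ => ?_
      rw [Finset.mem_coe, Set.Finite.mem_toFinset]
      exact hmem s
    have h4 : ((SS i).card : ℝ) = ∑ F ∈ hfin.toFinset,
        (((SS i).filter fun s : ℕ => fl Γ (nrm (Gs i (s : ℤ))) = F).card : ℝ) := by
      exact_mod_cast congrArg (Nat.cast : ℕ → ℝ) h3
    rw [h4]
    refine (Finset.sum_le_sum hfib).trans ?_
    rw [Finset.sum_const, nsmul_eq_mul, Set.ncard_eq_toFinset_card _ hfin]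
  have hb := hL0 (i : ℝ) ((le_max_left L0 2).trans hiL1)
  have h5 : Real.exp ((i : ℝ) / 4) ≤ (NX Γ T).ncard * Real.exp ((i : ℝ) / 8) :=
    hcard.trans (hcount.trans (mul_le_mul_of_nonneg_left hb (by positivity)))
  have h6 : Real.exp ((i : ℝ) / 4) = Real.exp ((i : ℝ) / 8) * Real.exp ((i : ℝ) / 8) := by
    rw [← Real.exp_add]
    congr 1
    ring
  rw [h6] at h5
  have h7 : Real.exp ((i : ℝ) / 8) ≤ (NX Γ T).ncard := le_of_mul_le_mul_right h5 (Real.exp_pos _)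
  refine le_trans (Real.exp_le_exp.mpr ?_) h7
  have h8 : c1 / 16 * T ^ (1 / 2 : ℝ) = L / 16 := by
    rw [hL]
    ring
  rw [h8]
  linarith

end Pool.FL4
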