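import Pool.Agent.H12.FL4.LGS
import Pool.Agent.H22.FL4.DET
import Pool.Agent.H23.FL4.CONR
import Pool.Agent.H24.FL4.UNI
import Pool.Agent.H26.FL4.VOL
import Pool.Agent.H29.FL4.FN4
import Pool.Agent.H31.FL4.ABS
import Pool.Agent.H31.FL4.PAT
import Pool.Agent.H31.FL4.RED
import Pool.Agent.H36.FL4.NRE
import Pool.Agent.H29.FL4.CLS
import Pool.Agent.H45.FL4.ACT
import Pool.Agent.H50.FL4.ALG
import Pool.Agent.H53.FL4.MEF
import Pool.Agent.H54.FL4.POS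
import Pool.Agent.H55.FL4.SEQ
import Pool.Agent.H56.FL4.SIE
import Pool.Agent.H62.FL4.FB4
import Pool.Agent.H65.FL4.BOX
import Pool.Agent.H78.FL4.EQL
import Pool.Agent.H86.FL4.IJ4

/-!
# The rows of the board fl4 (MP_e1ba20, degree four), put together
-/

set_option autoImplicit false

namespace Pool.FL4

open Pool.FLT

theorem fn4All : FN4Stmt :=
  have hSEQ : SEQStmt := seq
  have hPOS : POSStmt := pos hSEQ
  have hDET : DETStmt := det hSEQ hPOS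
  have hBOX : BOXStmt := box
  have hVOL : VOLStmt := vol
  have hMEF : MEFStmt := mef hBOX hVOL
  have hACT : ACTStmt := act hPOS
  have hALG : ALGStmt := alg hSEQ hPOS
  have hLGS : LGSStmt := lgs hSEQ hPOS
  have hUNI : UNIStmt := uni hPOS hACT hALG hLGS
  have hEQL : EQLStmt := eql hDET
  have hNRE : NREStmt := nre hDET
  have hCON : CONStmt := con hSEQ hPOS hDET
  have hIJ4 : IJ4Stmt := ij4 hSEQ hPOS hDET
  have hRED : REDStmt := red hBOX hUNI hCON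
  have hCLS : CLSStmt := cls29 hNRE hRED hIJ4 fb4
  have hABS : ABSStmt := Pool.FL4.abs pat
  fn4 hSEQ sie hMEF hUNI hEQL hCLS hABS

/-- degree four -/
theorem exact4All (Γ : Subgroup (GZ 4)) (hΓ : Γ.index ≠ 0) : ∃ c C T0 : ℝ, 0 < c ∧ 0 < C ∧
    ∀ T : ℝ, T0 ≤ T → (NX Γ T).Finite ∧ Real.exp (c * T ^ (1 / 2 : ℝ)) ≤ ((NX Γ T).ncard : ℝ) ∧
      ((NX Γ T).ncard : ℝ) ≤ Real.exp (C * T ^ (1 / 2 : ℝ)) := by
  obtain ⟨_c0, C, T0, _, hC, h1⟩ := Pool.FLT.finAll 4 (by norm_num) Γ hΓ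
  obtain ⟨c, T1, hc, h2⟩ := fn4All Γ hΓ
  refine ⟨c, C, max T0 T1, hc, hC, fun T hT => ?_⟩
  obtain ⟨h3, -, h4⟩ := h1 T ((le_max_left _ _).trans hT)
  refine ⟨h3, h2 T ((le_max_right _ _).trans hT) h3, ?_⟩
  have h5 : ((4 - 4 / Nat.minFac 4 : ℕ) : ℝ) = 2 := by norm_num
  rw [h5] at h4
  exact h4

end Pool.FL4
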