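import Pool.Agent.H89.FLT.All

/-!
# MP_e1ba20, degree four: `N_X(T) ≥ exp (c T^(1/2))` for `SL_4`, statements of the rows

`k = ℚ(√2)`, `t = (17 + 12 √2)^i = P + Q √2` a unit, `β = t + √2`, `y² = β² - 1`, `K = k(y)`,
`O = ℤ[√2][y]`. Relative units `w₁ = β + y` and `w₂ = (√2 β - 1 + y) / t` (norm one). Their powers
`w₁²` and `w₂⁴` lie in the order `ℤ[√2] + β O`, and the regulator is only `O(i²)`. The lattices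
`Λ_s = ℤ[√2] (y - s) + ℤ[√2] β`, `0 ≤ s < N = 4 Q + 1 = -norm β`, `(s² + 1, N) = 1`, are stable under
this order, so each gives a compact flat of volume `O(i²)`; the number of `s` is at least `√N`
(exponential in `i`), and only `O(i³)` of the `Λ_s` give the same flat.

The four real embeddings are the indices `j : Fin 4`; an element of `K` is the vector of its images.
Index order: `√2 ↦ √2, √2, -√2, -√2`; `y ↦ y₊, -y₊, y₋, -y₋`.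
Rows: Props `XXXStmt`; deliver `theorem xxx : XXXStmt` in `Pool/Agent/H<k>/FL4/XXX.lean`, namespace
`Pool.FL4`, other rows as hypotheses `(h : YYYStmt)`, in the order of the column `needs`.
-/

set_option autoImplicit false

open Matrix MeasureTheory

namespace Pool.FL4

open Pool.FLT

/-- `P i + Q i √2 = (17 + 12 √2)^i` -/
def PQ : ℕ → ℤ × ℤ
  | 0 => (1, 0)
  | i + 1 => (17 * (PQ i).1 + 24 * (PQ i).2, 12 * (PQ i).1 + 17 * (PQ i).2)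

def P (i : ℕ) : ℤ := (PQ i).1

def Q (i : ℕ) : ℤ := (PQ i).2

/-- `√2` in the four embeddings -/
noncomputable def r : Fin 4 → ℝ := ![√2, √2, -√2, -√2]

/-- `β = t + √2` -/
noncomputable def be (i : ℕ) (j : Fin 4) : ℝ := P i + (Q i + 1) * r j

/-- `y`, with `y² = β² - 1` -/
noncomputable def yy (i : ℕ) (j : Fin 4) : ℝ := (![1, -1, 1, -1] : Fin 4 → ℝ) j * √(be i j ^ 2 - 1)

/-- `z ∈ O = ℤ[√2] + ℤ[√2] y` -/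
def inO (i : ℕ) (z : Fin 4 → ℝ) : Prop :=
  ∃ m : Fin 4 → ℤ, ∀ j, z j = m 0 + m 1 * r j + (m 2 + m 3 * r j) * yy i j

/-- `z ∈ Λ_s = ℤ[√2] (y - s) + ℤ[√2] β` -/
def inL (i : ℕ) (s : ℤ) (z : Fin 4 → ℝ) : Prop :=
  ∃ m : Fin 4 → ℤ, ∀ j, z j = (m 0 + m 1 * r j) * (yy i j - s) + (m 2 + m 3 * r j) * be i j

/-- `Λ_s d = Λ_s'` -/
def Eqv (i : ℕ) (s s' : ℤ) (d : Fin 4 → ℝ) : Prop :=
  (∀ j, d j ≠ 0) ∧ ∀ z : Fin 4 → ℝ, inL i s z ↔ inL i s' (fun j => z j * d j)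

/-- basis of `O` -/
noncomputable def G0 (i : ℕ) : Matrix (Fin 4) (Fin 4) ℝ :=
  Matrix.of ![fun _ => 1, r, yy i, fun j => r j * yy i j]

/-- basis of `Λ_s` -/
noncomputable def Gs (i : ℕ) (s : ℤ) : Matrix (Fin 4) (Fin 4) ℝ :=
  Matrix.of ![fun j => yy i j - s, fun j => r j * (yy i j - s), be i, fun j => r j * be i j]

open Classical in
/-- the first column is divided by the determinant -/
noncomputable def nrm (B : Matrix (Fin 4) (Fin 4) ℝ) : GR 4 :=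
  if h : B.det ≠ 0 then
    ⟨B * diagonal (fun j => if j = 0 then B.det⁻¹ else 1), by
      rw [Matrix.det_mul, Matrix.det_diagonal, Fin.prod_univ_four]
      simp [h]⟩
  else 1

/-- the parameters `s` -/
def SS (i : ℕ) : Finset ℕ :=
  (Finset.range (4 * Q i + 1).toNat).filter fun s => Nat.Coprime (s ^ 2 + 1) (4 * Q i + 1).toNat

/-- a vector of `aa 4` in the orthogonal basis `(1,1,-1,-1), (1,-1,0,0), (0,0,1,-1)` -/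
def cor (x : aa 4) (p a b : ℝ) : Prop :=
  co x 0 = p + a ∧ co x 1 = p - a ∧ co x 2 = -p + b ∧ co x 3 = -p - b

/-! ### Numbers -/

/-- SEQ: induction on `i`. (`0 < 17 - 12 √2 < 1/33`, `(17 + 12 √2) (17 - 12 √2) = 1`.) -/
def SEQStmt : Prop := ∀ i : ℕ, P i ^ 2 - 2 * Q i ^ 2 = 1 ∧ 1 ≤ P i ∧ 0 ≤ Q i ∧ (3 : ℤ) ∣ Q i ∧
  ¬ (3 : ℤ) ∣ P i ∧ ((P i : ℝ) + Q i * √2 = (17 + 12 * √2) ^ i) ∧
  ((P i : ℝ) - Q i * √2 = (17 - 12 * √2) ^ i) ∧ (2 : ℤ) ^ i ≤ 4 * Q i + 1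

/-- SIE. The number `f N` of `s < N` with `(s² + 1, N) = 1` is multiplicative (Chinese remainder theorem
on `ZMod`: `IsUnit (s^2 + 1)`), `f (3^e) = 3^e`, and for a prime `p ≥ 5` at most two classes modulo `p` are
excluded: `f (p^e) ≥ p^(e-1) (p - 2)`, whose square is `≥ p^e`. -/
def SIEStmt : Prop := ∀ N : ℕ, Odd N →
  N ≤ ((Finset.range N).filter fun s => Nat.Coprime (s ^ 2 + 1) N).card ^ 2

/-- POS (from SEQ). For `i ≥ 1`, `t = (17 + 12 √2)^i ≥ 33`, `β = t + √2` at `j = 0, 1` and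
`β = t⁻¹ - √2` at `j = 2, 3`, so `-√2 < β < -138/100` there, and `β² > 1` everywhere. -/
def POSStmt : Prop := ∀ i : ℕ, 1 ≤ i → (∀ j, r j ^ 2 = 2) ∧ (∀ j, yy i j ^ 2 = be i j ^ 2 - 1) ∧
  (∀ j, yy i j ≠ 0) ∧ (∀ j, be i j ≠ 0) ∧
  (33 : ℝ) ≤ (17 + 12 * √2) ^ i ∧ yy i 1 = - yy i 0 ∧ yy i 3 = - yy i 2 ∧ 0 < yy i 0 ∧ 0 < yy i 2 ∧
  be i 0 = (17 + 12 * √2) ^ i + √2 ∧ be i 1 = be i 0 ∧ be i 2 = (17 - 12 * √2) ^ i - √2 ∧ be i 3 = be i 2 ∧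
  be i 2 < -(138 / 100)

/-- DET (from SEQ, POS). `det (G0 i) = ± 32 y₊ y₋`-like, `Gs = (integer matrix of determinant ± N) * G0`. -/
def DETStmt : Prop := ∀ i : ℕ, 1 ≤ i → (G0 i).det ≠ 0 ∧ ∀ s : ℤ, (Gs i s).det ≠ 0

/-! ### Flats of small volume -/

/-- BOX. `X = p (1,1,-1,-1) + a (1,-1,0,0) + b (0,0,1,-1)`; reduce `p` modulo `log (1 + √2) ≤ 1`, then
`(a, b)` modulo the lattice spanned by `(A, B), (C, D)`: coefficients in `[0,1]`. The same with all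
vectors multiplied by a positive integer `m`. -/
def BOXStmt : Prop := ∀ (m : ℕ), 0 < m → ∀ (R A B C D : ℝ), 1 ≤ R → |A| ≤ R → |B| ≤ R → |C| ≤ R →
  |D| ≤ R → A * D - B * C ≠ 0 → ∀ x0 x1 x2 X : aa 4, cor x0 (Real.log (1 + √2)) 0 0 → cor x1 0 A B →
  cor x2 0 C D → ∃ (n0 n1 n2 : ℤ) (p a b : ℝ), |p| ≤ m ∧ |a| ≤ 2 * m * R ∧ |b| ≤ 2 * m * R ∧
    cor (X + ((m : ℝ) * n0) • x0 + ((m : ℝ) * n1) • x1 + ((m : ℝ) * n2) • x2) p a b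

/-- VOL. The set for `R` is the image of the set for `R = 1` under the linear map multiplying the second
and third basis vector by `R`, of determinant `R²`. -/
def VOLStmt : Prop := ∀ K : ℝ, 0 < K → ∃ C : ℝ, 0 < C ∧ ∀ R : ℝ, 1 ≤ R →
  IsCompact {x : aa 4 | ∃ p a b : ℝ, |p| ≤ K ∧ |a| ≤ K * R ∧ |b| ≤ K * R ∧ cor x p a b} ∧
  vol 4 {x : aa 4 | ∃ p a b : ℝ, |p| ≤ K ∧ |a| ≤ K * R ∧ |b| ≤ K * R ∧ cor x p a b} ≤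
    ENNReal.ofReal (C * R ^ 2)

/-- MEF (from BOX, VOL, `sqr : SQRStmt` of `Pool/Agent/H15/FLT/SQR.lean`). Let `m` be the number of SQR for
`Γ` and `n = 2`; apply BOX with `2 m` in place of `m`, `B` the box. -/
def MEFStmt : Prop := ∀ Γ : Subgroup (GZ 4), Γ.index ≠ 0 → ∃ C0 : ℝ, 0 < C0 ∧
  ∀ (g : GR 4) (R A B C D : ℝ), 1 ≤ R → |A| ≤ R → |B| ≤ R → |C| ≤ R → |D| ≤ R → A * D - B * C ≠ 0 →
  ∀ x0 x1 x2 : aa 4, x0 ∈ Lam g → x1 ∈ Lam g → x2 ∈ Lam g → cor x0 (Real.log (1 + √2)) 0 0 →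
  cor x1 0 A B → cor x2 0 C D → ∀ T : ℝ, C0 * R ^ 2 < T → fl Γ g ∈ NX Γ T

/-! ### Units -/

/-- ACT (from POS). `(y - s) β y = - s β (y - s) + (β² - 1 - s²) β`, `β · β y = β² (y - s) + s β · β`. -/
def ACTStmt : Prop := ∀ i : ℕ, 1 ≤ i → ∀ (s a b c d : ℤ) (z : Fin 4 → ℝ), inL i s z →
  inL i s (fun j => z j * ((a + b * r j) + (c + d * r j) * be i j * yy i j))

/-- ALG (from SEQ, POS). `w₁ = β + y`, `w₁² = 2 β² - 1 + 2 β y`; `w₂ = (r β - 1 + y) t⁻¹`, `t = P + Q r`,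
`t⁻¹ = P - Q r`, `w₂² = β c₀ + 2 a b y` with `a = (r β - 1) t⁻¹`, `b = t⁻¹`, `c₀ = t⁻² (3 β - 2 r)`, `w₂⁴ = 2 β² c₀² - 1 + 4 a b c₀ β y`;
the inverses have `-y` in place of `y`. -/
def ALGStmt : Prop := ∀ i : ℕ, 1 ≤ i →
  (∃ a b c d : ℤ, ∀ j, (be i j + yy i j) ^ 2 = (a + b * r j) + (c + d * r j) * be i j * yy i j ∧
    ((be i j + yy i j) ^ 2)⁻¹ = (a + b * r j) - (c + d * r j) * be i j * yy i j) ∧
  (∃ a b c d : ℤ, ∀ j, ((r j * be i j - 1 + yy i j) * (P i - Q i * r j)) ^ 4 =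
      (a + b * r j) + (c + d * r j) * be i j * yy i j ∧
    (((r j * be i j - 1 + yy i j) * (P i - Q i * r j)) ^ 4)⁻¹ =
      (a + b * r j) - (c + d * r j) * be i j * yy i j)

/-- LGS (from SEQ, POS). `A = 2 log (β₊ + y₊)`, `B = 2 log |β₋ + y₋|`, `C = 4 log (w₂)₊`, `D = 4 log (w₂)₋`.
With `t = (17 + 12 √2)^i ≥ 33`: `t ≤ β₊ + y₊ ≤ 3 t`, `1/3 < |β₋ + y₋| < 1`, `1 ≤ (w₂)₊ ≤ 5/2`,
`t ≤ (w₂)₋ ≤ 2 t`; `log t ≤ 4 i`, and `A D ≥ 8 (log 33)² > 8 · (log 3) (log (5/2)) ≥ |B C|`. -/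
def LGSStmt : Prop := ∀ i : ℕ, 1 ≤ i → ∃ A B C D : ℝ, |A| ≤ 20 * i ∧ |B| ≤ 20 * i ∧ |C| ≤ 20 * i ∧
  |D| ≤ 20 * i ∧ A * D - B * C ≠ 0 ∧
  (∀ j, |(be i j + yy i j) ^ 2| = Real.exp ((![A, -A, B, -B] : Fin 4 → ℝ) j)) ∧
  (∀ j, |((r j * be i j - 1 + yy i j) * (P i - Q i * r j)) ^ 4| =
    Real.exp ((![C, -C, D, -D] : Fin 4 → ℝ) j))

/-- UNI (from ACT, ALG, LGS, POS). Units `1 + r`, `w₁²`, `w₂⁴`; `|1 + r j| = exp (± log (1 + √2))`. -/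
def UNIStmt : Prop := ∀ i : ℕ, 1 ≤ i → ∃ (A B C D : ℝ) (w : Fin 3 → Fin 4 → ℝ) (x : Fin 3 → aa 4),
  |A| ≤ 20 * i ∧ |B| ≤ 20 * i ∧ |C| ≤ 20 * i ∧ |D| ≤ 20 * i ∧ A * D - B * C ≠ 0 ∧
  cor (x 0) (Real.log (1 + √2)) 0 0 ∧ cor (x 1) 0 A B ∧ cor (x 2) 0 C D ∧
  (∀ k j, |w k j| = Real.exp (co (x k) j)) ∧ ∀ k s, Eqv i s s (w k)

/-- EQL (from DET). `Gs * diagonal d = cst η * Gs` because `inL i s` is the set of integer combinations of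
the rows of `Gs`. -/
def EQLStmt : Prop := ∀ i : ℕ, 1 ≤ i → ∀ (s : ℤ) (d : Fin 4 → ℝ) (x : aa 4), Eqv i s s d →
  (∀ j, |d j| = Real.exp (co x j)) → x ∈ Lam (nrm (Gs i s))

/-! ### Equality of flats -/

/-- NRE (from DET). `Gs i s' = cst γ * Gs i s * diagonal d'`, `γ` invertible over `ℤ`. -/
def NREStmt : Prop := ∀ i : ℕ, 1 ≤ i → ∀ (s s' : ℤ) (γ : GZ 4) (d : Fin 4 → ℝ),
  ((nrm (Gs i s') : GR 4) : Matrix (Fin 4) (Fin 4) ℝ) =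
    (inc 4 γ : Matrix (Fin 4) (Fin 4) ℝ) * ((nrm (Gs i s) : GR 4) : Matrix (Fin 4) (Fin 4) ℝ) * diagonal d →
  ∃ d' : Fin 4 → ℝ, Eqv i s s' d'

/-- CON (from SEQ, POS, DET). `1 = a (s² + 1) + b N`, `N = - β β'` with `β' = P - (Q + 1) r`, and
`s² + 1 = β² - (y - s)(y + s)`: so `1 = w (y - s) + κ β`, `w, κ ∈ O`. For `z ∈ O`:
`z d = z w ((y - s) d) + z κ (β d)` lies in `O`, because `(y - s) d, β d ∈ Λ_s' ⊆ O` and `O` is a ring. In the same way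
`z d⁻¹ ∈ O`. So `G0 * diagonal d = cst δ * G0`, `δ` invertible over `ℤ`, `∏ |d j| = 1`. -/
def CONStmt : Prop := ∀ i : ℕ, 1 ≤ i → ∀ s ∈ SS i, ∀ s' ∈ SS i, ∀ d : Fin 4 → ℝ,
  Eqv i (s : ℤ) (s' : ℤ) d → ∃ x ∈ Lam (nrm (G0 i)), ∀ j, |d j| = Real.exp (co x j)

/-- IJ4 (from SEQ, POS, DET). `Λ_s1 = Λ_s2`, so `s2 - s1 = (y - s1) - (y - s2) ∈ Λ_s2`, `s2 - s1 = κ β` with
`κ = a + b r`: `m = s2 - s1 = a P + 2 b (Q + 1)`, `0 = a (Q + 1) + b P`; `m P = - a N`, `m (Q + 1) = b N`, and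
`(P, Q + 1) = 1` (a common prime factor divides `3 = (P² - 1 ... )`: `P² - 2 (Q+1)² + 4 (Q + 1) - 3 = 0`); so `N ∣ m`. -/
def IJ4Stmt : Prop := ∀ i : ℕ, 1 ≤ i → ∀ s1 ∈ SS i, ∀ s2 ∈ SS i, ∀ (s : ℤ) (d : Fin 4 → ℝ),
  Eqv i s (s1 : ℤ) d → Eqv i s (s2 : ℤ) d → s1 = s2

/-- FB4 (from `sub, gap, cnt, frk` of FLT: SUBStmt, GAPStmt, CNTStmt, FRKStmt; see
`Pool/Agent/H2/FLT/FIB.lean`): `d` is determined by `x` and the signs. -/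
def FB4Stmt : Prop := ∃ C : ℝ, 0 < C ∧ ∀ (g0 : GR 4) (ρ : ℝ), 1 ≤ ρ →
  {d : Fin 4 → ℝ | ∃ x ∈ Lam g0, ‖x‖ ≤ ρ ∧ ∀ j, |d j| = Real.exp (co x j)}.Finite ∧
  ({d : Fin 4 → ℝ | ∃ x ∈ Lam g0, ‖x‖ ≤ ρ ∧ ∀ j, |d j| = Real.exp (co x j)}.ncard : ℝ) ≤ C * ρ ^ 3

/-- RED (from BOX, UNI, CON). Multiply `d` by a product of powers (integer exponents) of the units `w k`. -/
def REDStmt : Prop := ∃ K : ℝ, 1 ≤ K ∧ ∀ i : ℕ, 1 ≤ i → ∀ s ∈ SS i, ∀ s' ∈ SS i, ∀ d : Fin 4 → ℝ,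
  Eqv i (s : ℤ) (s' : ℤ) d → ∃ (d' : Fin 4 → ℝ) (x : aa 4), Eqv i (s : ℤ) (s' : ℤ) d' ∧
    x ∈ Lam (nrm (G0 i)) ∧ ‖x‖ ≤ K * i ∧ ∀ j, |d' j| = Real.exp (co x j)

/-- CLS (from RED, IJ4, FB4, NRE) -/
def CLSStmt : Prop := ∃ C : ℝ, 0 < C ∧ ∀ i : ℕ, 1 ≤ i → ∀ s ∈ SS i, ∀ S : Finset ℕ, S ⊆ SS i →
  (∀ s' ∈ S, ∃ (γ : GZ 4) (d : Fin 4 → ℝ), ((nrm (Gs i (s' : ℤ)) : GR 4) : Matrix (Fin 4) (Fin 4) ℝ) =
    (inc 4 γ : Matrix (Fin 4) (Fin 4) ℝ) * ((nrm (Gs i (s : ℤ)) : GR 4) : Matrix (Fin 4) (Fin 4) ℝ) *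
      diagonal d) → (S.card : ℝ) ≤ C * (i : ℝ) ^ 3

/-- PAT (from nothing): a monomial matrix is a permutation matrix times a diagonal matrix -/
def PATStmt : Prop := ∀ M : GR 4, Mono (M : Matrix (Fin 4) (Fin 4) ℝ) →
  ∃ (σ : Equiv.Perm (Fin 4)) (e : Fin 4 → ℝ), (∀ j, e j ≠ 0) ∧
    ∀ i j, (M : Matrix (Fin 4) (Fin 4) ℝ) i j = if i = σ j then e j else 0

/-- ABS (from PAT and EQFStmt). In a set of indices with equal flats choose `s0`; `g s = γ_s (g s0) M_s`; for the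
indices with the same permutation the matrices `M_s⁻¹ M_s'` are diagonal. -/
def ABSStmt : Prop := ∀ (S : Finset ℕ) (g : ℕ → GR 4) (K : ℝ), 0 ≤ K →
  (∀ s ∈ S, ∀ S' : Finset ℕ, S' ⊆ S → (∀ s' ∈ S', ∃ (γ : GZ 4) (d : Fin 4 → ℝ),
    ((g s' : GR 4) : Matrix (Fin 4) (Fin 4) ℝ) =
      (inc 4 γ : Matrix (Fin 4) (Fin 4) ℝ) * ((g s : GR 4) : Matrix (Fin 4) (Fin 4) ℝ) * diagonal d) →
    (S'.card : ℝ) ≤ K) →
  ∀ (Γ : Subgroup (GZ 4)) (S' : Finset ℕ), S' ⊆ S → (∀ s ∈ S', ∀ s' ∈ S', fl Γ (g s) = fl Γ (g s')) →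
    (S'.card : ℝ) ≤ 24 * K

/-- FN4 (from SEQ, SIE, MEF, UNI, EQL, CLS, ABS). As `low` in `Pool/Agent/H89/FLT/LOW.lean`, with
`i = ⌊c₁ T^(1/2)⌋` and the flats of `nrm (Gs i s)`, `s ∈ SS i`. -/
def FN4Stmt : Prop := ∀ Γ : Subgroup (GZ 4), Γ.index ≠ 0 → ∃ (c T0 : ℝ), 0 < c ∧
  ∀ T : ℝ, T0 ≤ T → (NX Γ T).Finite → Real.exp (c * T ^ (1 / 2 : ℝ)) ≤ ((NX Γ T).ncard : ℝ)

end Pool.FL4
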